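import Pool.Agent.Helper53.TG.Upper

/-!
# `k`-covers of triangular grids restricted to residue classes

A hyperplane meets at most `q ^ (d - 1)` of the `q ^ d` residue classes modulo a prime `q`, and each residue class of `T_d(N)` contains a
homothetic copy of `T_d(n)`.
-/

set_option autoImplicit false

namespace Pool.Agent.Helper98.CE

open Pool.Agent.Helper53.TG Finset

variable {d : ℕ}

/-- the preimage under `z ↦ r + q z` -/
def pull (q : ℕ) (r : Fin d → ℕ) (S : Set (Fin d → ℝ)) : Set (Fin d → ℝ) :=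
  {z | (fun i => (r i : ℝ) + q * z i) ∈ S}

theorem pull_hyp {q : ℕ} (hq : 0 < q) (r : Fin d → ℕ) {S : Set (Fin d → ℝ)} (hS : IsHyperplane S) :
    IsHyperplane (pull q r S) := by
  obtain ⟨a, b, ha, rfl⟩ := hS
  have hq' : (q : ℝ) ≠ 0 := by exact_mod_cast hq.ne'
  refine ⟨a, (b - ∑ i, a i * r i) / q, ha, ?_⟩
  ext z
  simp only [pull, Set.mem_ofPred_eq]
  rw [eq_div_iff hq']
  have : ∑ i, a i * ((r i : ℝ) + q * z i) = ∑ i, a i * r i + (∑ i, a i * z i) * q := by
    rw [Finset.sum_mul, ← Finset.sum_add_distrib]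
    exact Finset.sum_congr rfl fun i _ => by ring
  rw [this]
  constructor <;> intro h <;> linarith

/-- the hyperplane meets the residue class -/
def Hit (q : ℕ) (r : Fin d → ℕ) (S : Set (Fin d → ℝ)) : Prop :=
  ∃ z : Fin d → ℕ, (fun i => (r i : ℝ) + q * z i) ∈ S

/-- the integer vectors orthogonal to `a`, modulo `q` -/
def orth (q : ℕ) (a : Fin d → ℝ) : AddSubgroup (Fin d → ZMod q) where
  carrier := {v | ∃ w : Fin d → ℤ, ∑ i, a i * w i = 0 ∧ ∀ i, ((w i : ℤ) : ZMod q) = v i}
  zero_mem' := ⟨0, by simp, by simp⟩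
  add_mem' := by
    rintro u v ⟨w, h1, h2⟩ ⟨w', h3, h4⟩
    refine ⟨w + w', ?_, fun i => by simp [h2, h4]⟩
    have : ∑ i, a i * ((w + w') i : ℤ) = ∑ i, a i * w i + ∑ i, a i * w' i := by
      rw [← Finset.sum_add_distrib]
      exact Finset.sum_congr rfl fun i _ => by push_cast [Pi.add_apply]; ring
    rw [this, h1, h3, add_zero]
  neg_mem' := by
    rintro u ⟨w, h1, h2⟩
    refine ⟨-w, ?_, fun i => by simp [h2]⟩
    have : ∑ i, a i * ((-w) i : ℤ) = -∑ i, a i * w i := by
      rw [← Finset.sum_neg_distrib]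
      exact Finset.sum_congr rfl fun i _ => by push_cast [Pi.neg_apply]; ring
    rw [this, h1, neg_zero]

theorem orth_ne_top {q : ℕ} (hq : q.Prime) {a : Fin d → ℝ} (ha : a ≠ 0) : orth q a ≠ ⊤ := by
  classical
  intro htop
  have hF : Fact q.Prime := ⟨hq⟩
  have h : ∀ j : Fin d, ∃ w : Fin d → ℤ, ∑ i, a i * w i = 0 ∧
      ∀ i, ((w i : ℤ) : ZMod q) = (Pi.single j (1 : ZMod q) : Fin d → ZMod q) i := by
    intro j
    have : (Pi.single j (1 : ZMod q) : Fin d → ZMod q) ∈ orth q a := by
      rw [htop]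
      exact AddSubgroup.mem_top _
    exact this
  choose w h1 h2 using h
  let M : Matrix (Fin d) (Fin d) ℤ := Matrix.of fun j i => w j i
  have hdet : M.det ≠ 0 := by
    intro h0
    have e1 : (M.map (Int.castRingHom (ZMod q))) = 1 := by
      ext j i
      simp only [Matrix.map_apply, M, Matrix.of_apply, Int.coe_castRingHom, h2 j i, Matrix.one_apply,
        Pi.single_apply]
      by_cases h : i = j
      · rw [if_pos h, if_pos h.symm]
      · rw [if_neg h, if_neg fun h' => h h'.symm]
    have e2 : (Int.castRingHom (ZMod q)) M.det = 1 := by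
      rw [RingHom.map_det, RingHom.mapMatrix_apply, e1, Matrix.det_one]
    rw [h0, map_zero] at e2
    exact zero_ne_one e2
  have hdet' : (M.map (Int.castRingHom ℝ)).det ≠ 0 := by
    rw [← RingHom.mapMatrix_apply, ← RingHom.map_det]
    simpa using hdet
  apply ha
  apply Matrix.eq_zero_of_mulVec_eq_zero hdet'
  funext j
  have := h1 j
  simp only [Matrix.mulVec, dotProduct, Matrix.map_apply, M, Matrix.of_apply, Int.coe_castRingHom,
    Pi.zero_apply]
  rw [← this]
  exact Finset.sum_congr rfl fun i _ => mul_comm _ _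

theorem card_orth {q : ℕ} (hq : q.Prime) {a : Fin d → ℝ} (ha : a ≠ 0) :
    Nat.card (orth q a) * q ≤ q ^ d := by
  have hF : Fact q.Prime := ⟨hq⟩
  have hcard : Nat.card (Fin d → ZMod q) = q ^ d := by
    rw [Nat.card_eq_fintype_card, Fintype.card_fun, ZMod.card, Fintype.card_fin]
  have hdvd : Nat.card (orth q a) ∣ q ^ d := by
    rw [← hcard]
    exact AddSubgroup.card_addSubgroup_dvd_card _
  obtain ⟨j, hj, hjc⟩ := (Nat.dvd_prime_pow hq).mp hdvd
  have hne : j ≠ d := by
    intro h
    apply orth_ne_top hq ha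
    apply AddSubgroup.eq_top_of_card_eq
    rw [hcard, hjc, h]
  rw [hjc, ← pow_succ]
  exact Nat.pow_le_pow_right hq.pos (by omega)

open Classical in
/-- a hyperplane meets at most `q ^ (d - 1)` residue classes -/
theorem card_hit {q : ℕ} (hq : q.Prime) {S : Set (Fin d → ℝ)} (hS : IsHyperplane S) :
    q * ((univ : Finset (Fin d → Fin q)).filter (fun r => Hit q (fun i => (r i : ℕ)) S)).card ≤ q ^ d := by
  have hF : Fact q.Prime := ⟨hq⟩
  obtain ⟨a, b, ha, rfl⟩ := hS
  rcases Finset.eq_empty_or_nonempty ((univ : Finset (Fin d → Fin q)).filter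
    (fun r => Hit q (fun i => (r i : ℕ)) {x : Fin d → ℝ | ∑ i, a i * x i = b})) with h | ⟨r0, h0⟩
  · rw [h]
    simp
  · rw [mem_filter] at h0
    obtain ⟨-, z0, hz0⟩ := h0
    refine le_trans ?_ (card_orth hq ha)
    rw [mul_comm]
    refine Nat.mul_le_mul_right q ?_
    have hfin : Fintype (orth q a) := Fintype.ofFinite _
    rw [Nat.card_eq_fintype_card, ← Finset.card_univ (α := orth q a), ← Finset.card_map ⟨Subtype.val, Subtype.val_injective⟩]
    refine Finset.card_le_card_of_injOn
      (fun r i => ((r i : ℕ) : ZMod q) - ((r0 i : ℕ) : ZMod q)) ?_ ?_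
    · intro r hr
      rw [Finset.mem_coe, mem_filter] at hr
      obtain ⟨-, z, hz⟩ := hr
      rw [Finset.mem_coe, Finset.mem_map]
      refine ⟨⟨_, ?_⟩, mem_univ _, rfl⟩
      refine ⟨fun i => ((r i : ℕ) : ℤ) + q * z i - ((r0 i : ℕ) + q * z0 i), ?_, ?_⟩
      · simp only [Set.mem_ofPred_eq] at hz hz0
        have : ∑ i, a i * ((((r i : ℕ) : ℤ) + q * z i - ((r0 i : ℕ) + q * z0 i) : ℤ) : ℝ) =
            ∑ i, a i * (((r i : ℕ) : ℝ) + q * z i) - ∑ i, a i * (((r0 i : ℕ) : ℝ) + q * z0 i) := by
          rw [← Finset.sum_sub_distrib]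
          refine Finset.sum_congr rfl fun i _ => ?_
          push_cast
          ring
        rw [this, hz, hz0, sub_self]
      · intro i
        push_cast
        simp
        rfl
    · intro r _ r' _ h
      funext i
      have h1 := congrFun h i
      simp only [sub_left_inj] at h1
      have h2 := (ZMod.natCast_eq_natCast_iff' _ _ _).mp h1
      rw [Nat.mod_eq_of_lt (r i).2, Nat.mod_eq_of_lt (r' i).2] at h2
      exact Fin.ext h2

open Classical in
theorem sum_hit {q : ℕ} (hq : q.Prime) (H : Multiset (Set (Fin d → ℝ))) (hH : ∀ S ∈ H, IsHyperplane S) :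
    q * ∑ r : Fin d → Fin q, Multiset.card (H.filter (fun S => Hit q (fun i => (r i : ℕ)) S)) ≤
      q ^ d * Multiset.card H := by
  induction H using Multiset.induction_on with
  | empty => simp
  | cons S H ih =>
    have h1 := ih fun T hT => hH T (Multiset.mem_cons_of_mem hT)
    have h2 := card_hit hq (hH S (Multiset.mem_cons_self S H))
    have e : ∀ r : Fin d → Fin q, Multiset.card ((S ::ₘ H).filter (fun S => Hit q (fun i => (r i : ℕ)) S)) =
        (if Hit q (fun i => (r i : ℕ)) S then 1 else 0) +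
          Multiset.card (H.filter (fun S => Hit q (fun i => (r i : ℕ)) S)) := by
      intro r
      by_cases h : Hit q (fun i => (r i : ℕ)) S
      · rw [Multiset.filter_cons_of_pos _ h, Multiset.card_cons, if_pos h, add_comm]
      · rw [Multiset.filter_cons_of_neg _ h, if_neg h, zero_add]
    simp only [e]
    rw [Finset.sum_add_distrib, ← Finset.card_filter, mul_add, Multiset.card_cons, mul_add, mul_one]
    linarith

/-- **Restriction to a residue class.** -/
theorem coset_prime {n N k q : ℕ} (hd : 1 ≤ d) (hn : 1 ≤ n) (hq : q.Prime)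
    (hN : q * (n - 1) + d * (q - 1) + 1 ≤ N) : q * f n d k ≤ f N d k := by
  classical
  obtain ⟨H, hH, hcard⟩ := exists_cover (d := d) (n := N) (k := k) hd (by omega)
  have hsum := sum_hit hq H hH.1
  obtain ⟨r, hr⟩ : ∃ r : Fin d → Fin q, q * Multiset.card
      (H.filter (fun S => Hit q (fun i => (r i : ℕ)) S)) ≤ Multiset.card H := by
    by_contra hcon
    push Not at hcon
    have hne : Nonempty (Fin q) := ⟨⟨0, hq.pos⟩⟩
    have h1 : ∑ _r : Fin d → Fin q, Multiset.card H < ∑ r : Fin d → Fin q, q * Multiset.card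
        (H.filter (fun S => Hit q (fun i => (r i : ℕ)) S)) :=
      Finset.sum_lt_sum_of_nonempty Finset.univ_nonempty fun r _ => hcon r
    rw [Finset.sum_const, Finset.card_univ, Fintype.card_fun, Fintype.card_fin, Fintype.card_fin,
      smul_eq_mul, ← Finset.mul_sum] at h1
    omega
  rw [← hcard]
  refine le_trans (Nat.mul_le_mul_left q ?_) hr
  refine Nat.sInf_le ⟨(H.filter (fun S => Hit q (fun i => (r i : ℕ)) S)).map
    (pull q (fun i => (r i : ℕ))), ⟨?_, ?_⟩, Multiset.card_map _ _⟩
  · intro S hS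
    obtain ⟨T, hT, rfl⟩ := Multiset.mem_map.mp hS
    exact pull_hyp hq.pos _ (hH.1 T (Multiset.mem_filter.mp hT).1)
  · rintro x ⟨z, hz, hs⟩
    have hX : (fun i => (((r i : ℕ)) : ℝ) + q * x i) ∈ Grid d N := by
      refine ⟨fun i => (r i : ℕ) + q * z i, fun i => ?_, ?_⟩
      · show ((r i : ℕ) : ℝ) + q * x i = (((r i : ℕ) + q * z i : ℕ) : ℝ)
        rw [hz i]
        push_cast
        ring
      rw [Finset.sum_add_distrib, ← Finset.mul_sum]
      have h1 : ∑ i, ((r i : ℕ)) ≤ d * (q - 1) := by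
        calc ∑ i, ((r i : ℕ)) ≤ ∑ _i : Fin d, (q - 1) :=
              Finset.sum_le_sum fun i _ => by have := (r i).2; omega
          _ = d * (q - 1) := by simp
      have h2 : q * ∑ i, z i ≤ q * (n - 1) := Nat.mul_le_mul_left q (by omega)
      omega
    refine le_trans (hH.2 _ hX) ?_
    rw [Multiset.filter_map, Multiset.card_map, Multiset.filter_filter]
    refine Multiset.card_le_card (Multiset.monotone_filter_right _ ?_)
    intro S hS
    refine ⟨hS, ⟨z, ?_⟩⟩
    have : (fun i => (((r i : ℕ)) : ℝ) + q * x i) = fun i => (((r i : ℕ)) : ℝ) + q * (z i : ℝ) := by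
      funext i
      rw [hz i]
    rw [← this]
    exact hS

theorem f_mono {n N k : ℕ} (hd : 1 ≤ d) (hn : 1 ≤ n) (h : n ≤ N) : f n d k ≤ f N d k := by
  obtain ⟨H, hH, hcard⟩ := exists_cover (d := d) (n := N) (k := k) hd (by omega)
  rw [← hcard]
  refine Nat.sInf_le ⟨H, ⟨hH.1, ?_⟩, rfl⟩
  rintro x ⟨z, hz, hs⟩
  exact hH.2 x ⟨z, hz, by omega⟩

/-- superadditivity -/
theorem superadd {k : ℕ} (hd : 1 ≤ d) (q : ℕ) :
    ∀ n, 1 ≤ n → q * f n d k ≤ f (q * (n + d - 1) - (d - 1)) d k := by
  induction q using induction_on_primes with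
  | zero => intro n _; simp
  | one =>
    intro n hn
    have : 1 * (n + d - 1) - (d - 1) = n := by omega
    rw [this, one_mul]
  | prime_mul p a hp ih =>
    intro n hn
    rcases Nat.eq_zero_or_pos a with h | h
    · rw [h]; simp
    · have h1 := ih n hn
      set m := a * (n + d - 1) - (d - 1) with hm
      have h2 : n + d - 1 ≤ a * (n + d - 1) := Nat.le_mul_of_pos_left _ h
      have h3 : 1 ≤ m := by omega
      have h4 : m + d - 1 = a * (n + d - 1) := by omega
      have h5 := coset_prime (n := m) (N := p * (m + d - 1) - (d - 1)) (k := k) hd h3 hp (by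
        obtain ⟨t, ht⟩ : ∃ t, p = t + 1 := ⟨p - 1, by have := hp.pos; omega⟩
        obtain ⟨s, hs⟩ : ∃ s, m = s + 1 := ⟨m - 1, by omega⟩
        obtain ⟨e, he⟩ : ∃ e, d = e + 1 := ⟨d - 1, by omega⟩
        rw [ht, hs, he]
        simp only [Nat.add_sub_cancel]
        have : s + 1 + (e + 1) - 1 = s + e + 1 := by omega
        rw [this]
        have h7 : (t + 1) * (s + e + 1) = (t + 1) * s + (e + 1) * t + e + 1 + t - t := by
          have : (t + 1) * (s + e + 1) = (t + 1) * s + (e + 1) * t + e + 1 := by ring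
          omega
        omega)
      rw [h4] at h5
      calc p * a * f n d k = p * (a * f n d k) := by ring
        _ ≤ p * f m d k := Nat.mul_le_mul_left p h1
        _ ≤ f (p * (a * (n + d - 1)) - (d - 1)) d k := h5
        _ = f (p * a * (n + d - 1) - (d - 1)) d k := by rw [mul_assoc]

end Pool.Agent.Helper98.CE
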