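import Pool.Agent.Helper98.CE.Coset

/-!
# The limit of `f n d k / n`
-/

set_option autoImplicit false

namespace Pool.Agent.Helper98.CE

open Pool.Agent.Helper53.TG Finset Filter Topology

theorem f_le_mul {d : ℕ} (hd : 1 ≤ d) (k n : ℕ) : f n d k ≤ k * n := by
  classical
  refine Nat.sInf_le ⟨k • (Multiset.range n).map (fun j => FH d n (Fin.last d) j), ⟨?_, ?_⟩, ?_⟩
  · intro S hS
    have h1 := Multiset.mem_of_mem_nsmul hS
    obtain ⟨j, -, rfl⟩ := Multiset.mem_map.mp h1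
    exact FH_hyp hd n _ j
  · intro x hx
    obtain ⟨X, hX, hs⟩ := grid_nat hx
    rw [Multiset.filter_nsmul, Multiset.card_nsmul]
    refine Nat.le_mul_of_pos_right k ?_
    rw [Multiset.card_pos_iff_exists_mem]
    refine ⟨FH d n (Fin.last d) (X (Fin.last d)), Multiset.mem_filter.mpr ⟨Multiset.mem_map.mpr
      ⟨X (Fin.last d), ?_, rfl⟩, hX _⟩⟩
    rw [Multiset.mem_range]
    have := Finset.single_le_sum (f := X) (fun i _ => Nat.zero_le _) (Finset.mem_univ (Fin.last d))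
    omega
  · rw [Multiset.card_nsmul, Multiset.card_map, Multiset.card_range]

/-- A monotone sequence `F ≥ 0` with `F n ≤ A n` and `q F(n) ≤ F(q (n+e) - e)`: the limit of `F n / n` is the
supremum of `F n / (n+e)`. -/
theorem limit_of (e : ℕ) (F : ℕ → ℕ) (A : ℕ) (hmono : ∀ n N, 1 ≤ n → n ≤ N → F n ≤ F N)
    (hA : ∀ n, F n ≤ A * n) (hsup : ∀ q n, 1 ≤ q → 1 ≤ n → q * F n ≤ F (q * (n + e) - e)) :
    ∃ c : ℝ, Tendsto (fun n => (F n : ℝ) / n) atTop (𝓝 c) ∧
      (∀ n, 1 ≤ n → (F n : ℝ) ≤ c * (n + e)) ∧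
      IsLUB {t : ℝ | ∃ n : ℕ, 1 ≤ n ∧ t = (F n : ℝ) / (n + e)} c := by
  have hpos : ∀ n : ℕ, 1 ≤ n → (0 : ℝ) < (n : ℝ) + e := fun n hn => by
    have : (1 : ℝ) ≤ n := by exact_mod_cast hn
    positivity
  let s : Set ℝ := {t | ∃ n : ℕ, 1 ≤ n ∧ t = (F n : ℝ) / (n + e)}
  have hbdd : BddAbove s := by
    refine ⟨A, ?_⟩
    rintro t ⟨n, hn, rfl⟩
    rw [div_le_iff₀ (hpos n hn)]
    have h1 : (F n : ℝ) ≤ A * n := by exact_mod_cast hA n
    have h2 : (0 : ℝ) ≤ A * e := by positivity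
    linarith
  have hne : s.Nonempty := ⟨_, 1, le_rfl, rfl⟩
  set c := sSup s with hc
  have hle : ∀ n, 1 ≤ n → (F n : ℝ) ≤ c * (n + e) := by
    intro n hn
    have := le_csSup hbdd (show (F n : ℝ) / (n + e) ∈ s from ⟨n, hn, rfl⟩)
    rwa [div_le_iff₀ (hpos n hn)] at this
  refine ⟨c, ?_, hle, isLUB_csSup hne hbdd⟩
  have hc0 : 0 ≤ c := by
    have := le_csSup hbdd (show (F 1 : ℝ) / ((1 : ℕ) + e) ∈ s from ⟨1, le_rfl, rfl⟩)
    refine le_trans ?_ this
    positivity
  rw [Metric.tendsto_atTop]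
  intro ε hε
  obtain ⟨t, ⟨n0, hn0, rfl⟩, ht⟩ := exists_lt_of_lt_csSup hne (show c - ε / 2 < sSup s by linarith)
  obtain ⟨N1, hN1⟩ := exists_nat_gt ((c * e + F n0 + 1) / (ε / 2))
  refine ⟨max (max N1 1) (n0 + e), fun N hN => ?_⟩
  have hN1' : N1 ≤ N := le_trans (le_trans (le_max_left _ _) (le_max_left _ _)) hN
  have hN2' : 1 ≤ N := le_trans (le_trans (le_max_right _ _) (le_max_left _ _)) hN
  have hN3' : n0 + e ≤ N := le_trans (le_max_right _ _) hN
  have hNpos : (0 : ℝ) < N := by exact_mod_cast hN2'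
  have hbig : c * e + F n0 + 1 < (ε / 2) * N := by
    have h1 : (c * e + F n0 + 1) / (ε / 2) < N := lt_of_lt_of_le hN1 (by exact_mod_cast hN1')
    rw [div_lt_iff₀ (by linarith)] at h1
    linarith
  rw [Real.dist_eq, abs_lt]
  constructor
  · -- lower bound
    set q := (N + e) / (n0 + e) with hq
    have hm : 0 < n0 + e := by omega
    have hq1 : 1 ≤ q := (Nat.one_le_div_iff hm).mpr (by omega)
    have hq2 : q * (n0 + e) ≤ N + e := Nat.div_mul_le_self _ _
    have hq3 : N + e < (q + 1) * (n0 + e) := by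
      have := Nat.lt_mul_div_succ (N + e) hm
      rw [mul_comm]
      exact this
    have h1 := hsup q n0 hq1 hn0
    have hge : n0 + e ≤ q * (n0 + e) := Nat.le_mul_of_pos_left _ hq1
    have h2 := hmono (q * (n0 + e) - e) N (by omega) (by omega)
    have h3 : (q : ℝ) * F n0 ≤ F N := by exact_mod_cast le_trans h1 h2
    have h4 : (N : ℝ) + e < (q + 1) * (n0 + e) := by exact_mod_cast hq3
    have h5 := hpos n0 hn0
    have h6 : (c - ε / 2) * (n0 + e) < F n0 := by
      rwa [lt_div_iff₀ h5] at ht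
    have hF0 : (0 : ℝ) ≤ F n0 := Nat.cast_nonneg _
    have he0 : (0 : ℝ) ≤ e := Nat.cast_nonneg _
    suffices hs : (c - ε) * N < F N by
      have h11 : c - ε < (F N : ℝ) / N := by rwa [lt_div_iff₀ hNpos]
      linarith
    by_cases hcε : c - ε / 2 ≤ 0
    · have : (c - ε) * N < 0 := mul_neg_of_neg_of_pos (by linarith) hNpos
      have hFN : (0 : ℝ) ≤ F N := Nat.cast_nonneg _
      linarith
    · push Not at hcε
      have h7 : (c - ε / 2) * (N + e) < (q + 1) * F n0 := by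
        calc (c - ε / 2) * (N + e) < (c - ε / 2) * ((q + 1) * (n0 + e)) :=
              mul_lt_mul_of_pos_left h4 hcε
          _ = (q + 1) * ((c - ε / 2) * (n0 + e)) := by ring
          _ ≤ (q + 1) * F n0 := mul_le_mul_of_nonneg_left h6.le (by positivity)
      have h8 : (c - ε / 2) * N ≤ (c - ε / 2) * (N + e) :=
        mul_le_mul_of_nonneg_left (by linarith) hcε.le
      have h9 : (q + 1 : ℝ) * F n0 ≤ F N + F n0 := by nlinarith
      have h10 : (0 : ℝ) ≤ c * e := by positivity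
      nlinarith
  · -- upper bound
    have h1 := hle N hN2'
    rw [sub_lt_iff_lt_add, div_lt_iff₀ hNpos]
    have hF0 : (0 : ℝ) ≤ F n0 := Nat.cast_nonneg _
    nlinarith

theorem rate_limit (d k : ℕ) (hd : 1 ≤ d) :
    ∃ c : ℝ, Tendsto (fun n => (f n d k : ℝ) / n) atTop (𝓝 c) ∧
      IsLUB {t : ℝ | ∃ n : ℕ, 1 ≤ n ∧ t = (f n d k : ℝ) / ((n : ℝ) + d - 1)} c ∧
      ∀ C : ℝ, IsRate d k C ↔ C = c ∧ ∃ B : ℝ, ∀ n : ℕ, 1 ≤ n → c * n - B ≤ (f n d k : ℝ) := by
  obtain ⟨c, h1, h2, hlub⟩ := limit_of (d - 1) (fun n => f n d k) k (fun n N hn h => f_mono hd hn h)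
    (fun n => f_le_mul hd k n) (fun q n _ hn => by
      have := superadd (k := k) hd q n hn
      have e : n + (d - 1) = n + d - 1 := by omega
      show q * f n d k ≤ f (q * (n + (d - 1)) - (d - 1)) d k
      rw [e]
      exact this)
  have hcast : ((d - 1 : ℕ) : ℝ) = (d : ℝ) - 1 := by rw [Nat.cast_sub hd, Nat.cast_one]
  have h3 : ∀ n : ℕ, 1 ≤ n → (f n d k : ℝ) ≤ c * ((n : ℝ) + d - 1) := by
    intro n hn
    have := h2 n hn
    rw [hcast] at this
    have e : (n : ℝ) + (d - 1) = n + d - 1 := by ring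
    rwa [e] at this
  have h3' : IsLUB {t : ℝ | ∃ n : ℕ, 1 ≤ n ∧ t = (f n d k : ℝ) / ((n : ℝ) + d - 1)} c := by
    have e : {t : ℝ | ∃ n : ℕ, 1 ≤ n ∧ t = (f n d k : ℝ) / ((n : ℝ) + d - 1)} =
        {t : ℝ | ∃ n : ℕ, 1 ≤ n ∧ t = (f n d k : ℝ) / (n + ((d - 1 : ℕ) : ℝ))} := by
      ext t
      simp only [Set.mem_ofPred_eq, hcast, add_sub_assoc]
    rw [e]
    exact hlub
  refine ⟨c, h1, h3', fun C => ⟨?_, ?_⟩⟩
  · rintro ⟨B, hB⟩
    have hC : C = c := by
      refine tendsto_nhds_unique ?_ h1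
      have h4 : Tendsto (fun n : ℕ => |B| / (n : ℝ)) atTop (𝓝 0) :=
        tendsto_const_div_atTop_nhds_zero_nat _
      rw [tendsto_iff_dist_tendsto_zero]
      refine squeeze_zero' (Eventually.of_forall fun n => dist_nonneg) ?_ h4
      filter_upwards [eventually_ge_atTop 1] with n hn
      have hn' : (0 : ℝ) < n := by exact_mod_cast hn
      rw [Real.dist_eq]
      have e : (f n d k : ℝ) / n - C = ((f n d k : ℝ) - C * n) / n := by
        field_simp
      rw [e, abs_div, abs_of_pos hn']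
      exact div_le_div_of_nonneg_right ((hB n hn).trans (le_abs_self B)) hn'.le
    refine ⟨hC, B, fun n hn => ?_⟩
    have := (abs_le.mp (hB n hn)).1
    rw [hC] at this
    linarith
  · rintro ⟨rfl, B, hB⟩
    have hc0 : 0 ≤ C := by
      have := h3 1 le_rfl
      have h0 : (0 : ℝ) ≤ f 1 d k := Nat.cast_nonneg _
      have hd' : (1 : ℝ) ≤ d := by exact_mod_cast hd
      by_contra hneg
      push Not at hneg
      have : C * (((1 : ℕ) : ℝ) + d - 1) < 0 := mul_neg_of_neg_of_pos hneg (by push_cast; linarith)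
      linarith
    have hd' : (1 : ℝ) ≤ d := by exact_mod_cast hd
    refine ⟨max B (C * (d - 1)), fun n hn => ?_⟩
    rw [abs_le]
    constructor
    · have h5 := hB n hn
      have h6 := le_max_left B (C * (d - 1))
      linarith
    · have h5 := h3 n hn
      have h6 := le_max_right B (C * (d - 1))
      have h7 : C * ((n : ℝ) + d - 1) = C * n + C * (d - 1) := by ring
      linarith

end Pool.Agent.Helper98.CE
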